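import Pool.Agent.H1.BtB

namespace Pool.Agent.Results.MP_a5aa7c_an.Proof

open MeasureTheory
open scoped ENNReal

section
variable {H : Type} [NormedAddCommGroup H] [InnerProductSpace ℂ H] [CompleteSpace H]

/-- the self-commutator `A* A - A A*` -/
noncomputable def selfComm (A : H →L[ℂ] H) : H →L[ℂ] H :=
  ContinuousLinearMap.adjoint A ∘L A - A ∘L ContinuousLinearMap.adjoint A

/-- `A` is hyponormal and its self-commutator has finite rank `r` -/
def HypoRank (A : H →L[ℂ] H) (r : ℕ) : Prop :=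
  (selfComm A).IsPositive ∧ FiniteDimensional ℂ (LinearMap.range (selfComm A).toLinearMap) ∧
    Module.finrank ℂ (LinearMap.range (selfComm A).toLinearMap) = r
end

variable {E : Type} [NormedAddCommGroup E] [InnerProductSpace ℂ E] [CompleteSpace E]

/-- the circle and its normalised Haar measure -/
abbrev T : Type := AddCircle (1 : ℝ)
noncomputable abbrev μ : Measure T := AddCircle.haarAddCircle

/-- membership in `H^∞` (operator valued) -/
def InHinf (K : T → E →L[ℂ] E) : Prop :=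
  MemLp K ∞ μ ∧ ∀ k < 0, fourierCoeff K k = 0

/-- membership in `𝓔(Φ)` -/
def InE (Φ K : T → E →L[ℂ] E) : Prop :=
  InHinf K ∧ eLpNorm K ∞ μ ≤ 1 ∧ InHinf fun t => Φ t - K t * star (Φ t)

/-- number of zeros in the open unit disc, counted with multiplicity -/
noncomputable def zeroCount (F : ℂ → ℂ) : ℕ :=
  ∑ᶠ z ∈ Metric.ball (0 : ℂ) 1, analyticOrderNatAt F z

/-- the Blaschke factor `(z - a) / (1 - conj a * z)` -/
noncomputable def bl (a z : ℂ) : ℂ := (z - a) / (1 - (starRingEnd ℂ) a * z)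

/-- the product `ν ∏ (b_m(z) P_m + (I - P_m))`; `L` lists the pairs `(α_m, P_m)` -/
noncomputable def bpp (ν : E →L[ℂ] E) (L : List (ℂ × (E →L[ℂ] E))) (z : ℂ) : E →L[ℂ] E :=
  ν * (L.map fun d => bl d.1 z • d.2 + (1 - d.2)).prod

/-- data of a finite Blaschke–Potapov product -/
def IsBP (ν : E →L[ℂ] E) (L : List (ℂ × (E →L[ℂ] E))) : Prop :=
  ν ∈ unitary (E →L[ℂ] E) ∧ ∀ d ∈ L, ‖d.1‖ < 1 ∧ IsStarProjection d.2 ∧ d.2 ≠ 0

open Pool.Agent.H1.Bt hiding T μ bl bpp in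
theorem result (E : Type) [NormedAddCommGroup E] [InnerProductSpace ℂ E] [CompleteSpace E]
    [FiniteDimensional ℂ E] (H : Type) [NormedAddCommGroup H] [InnerProductSpace ℂ H]
    [CompleteSpace H] (j : H →ₗᵢ[ℂ] Lp E 2 μ)
    (hj : ∀ f : Lp E 2 μ, f ∈ Set.range j ↔ ∀ k < 0, fourierCoeff f k = 0)
    (Φ : T → E →L[ℂ] E) (hΦ : MemLp Φ ∞ μ) (A : H →L[ℂ] H)
    (hA : ∀ x y, inner ℂ y (A x) = ∫ t, inner ℂ (j y t) (Φ t (j x t)) ∂μ)
    (r : ℕ) (h : HypoRank A r) :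
    ∃ (ν : E →L[ℂ] E) (L : List (ℂ × (E →L[ℂ] E))), IsBP ν L ∧
      InE Φ (fun t => bpp ν L (fourier 1 t)) ∧
      (∀ z, (bpp ν L z).det = ν.det * (L.map fun d => bl d.1 z).prod) ∧
      r = zeroCount fun z => (bpp ν L z).det := by
  obtain ⟨ν, hν, L, hL, hlen, h1, h2⟩ := main j hj hΦ A hA _ rfl h.1 h.2.1
  have hL1 : ∀ d ∈ L, ‖d.1‖ < 1 := fun d hd => (hL d hd).1
  refine ⟨ν, L, ⟨hν, fun d hd => ?_⟩, ⟨⟨memLp_cont (bpp_cont ν hL1), fun k hk => ?_⟩, ?_, h1, h2⟩,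
    det_bpp ν hL, (hlen.trans h.2.2).symm.trans (zeros_bpp hν hL).symm⟩
  · obtain ⟨h1, v, hv, h2⟩ := hL d hd
    have hv0 : v ≠ 0 := by intro h; rw [h, norm_zero] at hv; exact zero_ne_one hv
    rw [h2]
    exact ⟨h1, InnerProductSpace.isStarProjection_rankOne_self hv,
      InnerProductSpace.rankOne_ne_zero hv0 hv0⟩
  · ext1 x
    exact (coef_apply (memLp_cont (bpp_cont ν hL1)) k x).trans
      (mem_H2.1 (bpp_mem hL1 ν (ev_mem x)) k hk)
  · rw [eLpNorm_exponent_top, ← ENNReal.ofReal_one]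
    exact eLpNormEssSup_le_of_ae_bound
      (Filter.Eventually.of_forall fun t => norm_bpp hν hL (norm_four t))

end Pool.Agent.Results.MP_a5aa7c_an.Proof
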